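import Pool.Agent.H68.E4.C0

/-! Kernel computation. -/

set_option autoImplicit false
set_option maxRecDepth 100000

namespace Pool.Agent.H68.E4

theorem cb32 : ckb 16 512 = true := by decide +kernel
theorem cb33 : ckb 16 528 = true := by decide +kernel
theorem cb34 : ckb 16 544 = true := by decide +kernel
theorem cb35 : ckb 16 560 = true := by decide +kernel
theorem cb36 : ckb 16 576 = true := by decide +kernel
theorem cb37 : ckb 16 592 = true := by decide +kernel
theorem cb38 : ckb 16 608 = true := by decide +kernel
theorem cb39 : ckb 16 624 = true := by decide +kernel

end Pool.Agent.H68.E4
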