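import Pool.Agent.H68.E4.C2

/-! Kernel computation. -/

set_option autoImplicit false
set_option maxRecDepth 100000

namespace Pool.Agent.H68.E4

theorem cb48 : ckb 16 768 = true := by decide +kernel
theorem cb49 : ckb 16 784 = true := by decide +kernel
theorem cb50 : ckb 16 800 = true := by decide +kernel
theorem cb51 : ckb 16 816 = true := by decide +kernel
theorem cb52 : ckb 16 832 = true := by decide +kernel
theorem cb53 : ckb 16 848 = true := by decide +kernel
theorem cb54 : ckb 16 864 = true := by decide +kernel
theorem cb55 : ckb 16 880 = true := by decide +kernel

end Pool.Agent.H68.E4
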