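import Pool.Agent.H68.E4.Ker

/-! Kernel computation. -/

set_option autoImplicit false
set_option maxRecDepth 100000
set_option maxHeartbeats 4000000

namespace Pool.Agent.H68.E4

/-- representatives -/
def g0 : List (List ℕ) := [[1047552, 1046547, 1046546], [1046544, 1046528, 1044535], [1044534, 1044533, 1044532], [1044529, 1044528, 1044517], [1044516, 1044515, 1044514], [1044513, 1044512, 1044481], [1044480, 1040510, 1040508], [1040504, 1040496, 1040493], [1040492, 1040491, 1040490], [1040489, 1040488, 1040483], [1040482, 1040481, 1040480], [1040457, 1040456, 1040453], [1040452, 1040449, 1040448], [1040385, 1040384, 1036455], [1036454, 1036452, 1036451], [1036450, 1036448, 1036423], [1036422, 1036421, 1036420], [1036417, 1036416, 1036295], [1036294, 1036292, 1036288], [1035470, 1035468, 1035465], [1035464, 1035456, 1035406], [1035405, 1035404, 1035401], [1035400, 1035398, 1035396], [1035392, 1035278, 1035276], [1035273, 1035272, 1035264], [1034462, 1034460, 1034458], [1034456, 1034448, 1034446], [1034444, 1034443, 1034442], [1034441, 1034440, 1034435], [1034434, 1034432, 1034398]]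

theorem kk0 : ∀ l ∈ g0, chkl l = true := by
  simp only [g0, List.forall_mem_cons, List.not_mem_nil, false_implies, implies_true, and_true]
  exact ⟨by decide +kernel, by decide +kernel, by decide +kernel, by decide +kernel, by decide +kernel, by decide +kernel, by decide +kernel, by decide +kernel, by decide +kernel, by decide +kernel, by decide +kernel, by decide +kernel, by decide +kernel, by decide +kernel, by decide +kernel, by decide +kernel, by decide +kernel, by decide +kernel, by decide +kernel, by decide +kernel, by decide +kernel, by decide +kernel, by decide +kernel, by decide +kernel, by decide +kernel, by decide +kernel, by decide +kernel, by decide +kernel, by decide +kernel, by decide +kernel⟩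

end Pool.Agent.H68.E4
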