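import Pool.Agent.H68.E4.Ker

/-! Kernel computation. -/

set_option autoImplicit false
set_option maxRecDepth 100000
set_option maxHeartbeats 4000000

namespace Pool.Agent.H68.E4

/-- representatives -/
def g1 : List (List ℕ) := [[1034397, 1034396, 1034395], [1034394, 1034393, 1034392], [1034391, 1034390, 1034389], [1034388, 1034387, 1034386], [1034385, 1034384, 1034382], [1034381, 1034380, 1034379], [1034378, 1034377, 1034376], [1034375, 1034374, 1034373], [1034372, 1034371, 1034370], [1034369, 1034368, 1034270], [1034268, 1034267, 1034266], [1034265, 1034264, 1034259], [1034258, 1034256, 1034254], [1034252, 1034251, 1034250], [1034249, 1034248, 1034243], [1034242, 1034240, 1032398], [1032397, 1032396, 1032393], [1032392, 1032391, 1032390], [1032389, 1032388, 1032385], [1032384, 1032366, 1032365], [1032364, 1032363, 1032362], [1032361, 1032360, 1032359], [1032358, 1032357, 1032356], [1032355, 1032354, 1032353], [1032352, 1032334, 1032333], [1032332, 1032329, 1032328], [1032327, 1032326, 1032325], [1032324, 1032321, 1032320], [1032270, 1032269, 1032268], [1032265, 1032264, 1032263]]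

theorem kk1 : ∀ l ∈ g1, chkl l = true := by
  simp only [g1, List.forall_mem_cons, List.not_mem_nil, false_implies, implies_true, and_true]
  exact ⟨by decide +kernel, by decide +kernel, by decide +kernel, by decide +kernel, by decide +kernel, by decide +kernel, by decide +kernel, by decide +kernel, by decide +kernel, by decide +kernel, by decide +kernel, by decide +kernel, by decide +kernel, by decide +kernel, by decide +kernel, by decide +kernel, by decide +kernel, by decide +kernel, by decide +kernel, by decide +kernel, by decide +kernel, by decide +kernel, by decide +kernel, by decide +kernel, by decide +kernel, by decide +kernel, by decide +kernel, by decide +kernel, by decide +kernel, by decide +kernel⟩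

end Pool.Agent.H68.E4
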