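import Pool.Agent.H68.E4.K4

/-! Kernel computation. -/

set_option autoImplicit false
set_option maxRecDepth 100000
set_option maxHeartbeats 4000000

namespace Pool.Agent.H68.E4

/-- representatives -/
def g8 : List (List ℕ) := [[951316, 951314, 951312], [951308, 951307, 951306], [951304, 951303, 951302], [951300, 951299, 951298], [951296, 950540, 950537], [950536, 950535, 950534], [950533, 950532, 950529], [950528, 950460, 950458], [950456, 950452, 950450], [950448, 950444, 950443], [950442, 950440, 950438], [950436, 950435, 950434], [950432, 950428, 950426], [950425, 950424, 950422], [950421, 950420, 950419], [950418, 950417, 950416], [950412, 950411, 950410], [950409, 950408, 950406], [950405, 950404, 950403], [950402, 950401, 950400], [950300, 950298, 950296], [950295, 950294, 950292], [950291, 950290, 950288], [950284, 950283, 950282], [950280, 950279, 950278], [950276, 950275, 950274], [950272, 928952, 928944], [928936, 928928, 928904], [928896, 928776, 928768], [927912, 927904, 927897]]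

theorem kk8 : ∀ l ∈ g8, chkl l = true := by
  simp only [g8, List.forall_mem_cons, List.not_mem_nil, false_implies, implies_true, and_true]
  exact ⟨by decide +kernel, by decide +kernel, by decide +kernel, by decide +kernel, by decide +kernel, by decide +kernel, by decide +kernel, by decide +kernel, by decide +kernel, by decide +kernel, by decide +kernel, by decide +kernel, by decide +kernel, by decide +kernel, by decide +kernel, by decide +kernel, by decide +kernel, by decide +kernel, by decide +kernel, by decide +kernel, by decide +kernel, by decide +kernel, by decide +kernel, by decide +kernel, by decide +kernel, by decide +kernel, by decide +kernel, by decide +kernel, by decide +kernel, by decide +kernel⟩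

end Pool.Agent.H68.E4
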